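import Mathlib
import Pool.Agent.Q18.P.Artin

/-!
# The central order of Artin `L`-functions and Euler products at `s = 1/2`

Let `ρ` be a representation of degree `n` of the Galois group `G` of a finite extension of a number field `K` (`K = ℚ`
in the problem), `S` a finite set of places containing the ramified ones, `φ(v) ∈ G` a Frobenius element at `v ∉ S`,
`χ` the character of `ρ` and `F(s) = ∏_{v ∉ S} det (1 - q_v^{-s} ρ(Frob_v))⁻¹` the incomplete Artin `L`-function, which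
is meromorphic in `ℂ` by Brauer's theorem (the factors at `S` have neither zeros nor poles with `Re s > 0`). Let

`P(x) = ∏_{v ∉ S, q_v ≤ x} |det (1 - q_v^{-1/2} ρ(Frob_v))|`,
`P*(x) = exp (- ∑_{v ∉ S, q_v^k ≤ x} Re χ(Frob_v^k) / (k q_v^{k/2}))`

be the partial Euler products at the centre. Fix `0 < δ < 1`. Below, `for arbitrarily large Y` means: for an unbounded
set of `Y`, which may be as sparse as we like; the conditions only contain the products in the windows `[Y^(1-δ), Y]`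
of these `Y`, and only integrals over the windows.

1. If `F` has no real poles `> 1/2` and `∫_{Y^(1-δ)}^Y max (log P(y) - κ log log y, 0) dy/y ≤ B log Y` for arbitrarily
   large `Y`, then `ord_{s=1/2} L(s, χ) ≤ κ`, and `L(s, χ)` has no zeros and no poles with `Re s > 1/2` if `χ` is
   real-valued; for any `χ` the orders at `s` and at `conj s` add up to zero.
2. If `∫_{Y^(1-δ)}^Y |log P(y) - m log log y| dy/y ≤ B log Y` for arbitrarily large `Y`, then `ord_{s=1/2} L(s, χ) = m`,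
   and again there are no zeros and no poles with `Re s > 1/2` (`χ` real-valued; otherwise up to cancellation between
   `s` and `conj s`): the Riemann hypothesis for `L(s, χ)` and Artin's conjecture for `Re s > 1/2` follow from the
   bound, and neither is assumed, nor is anything assumed on real zeros and poles.
3. If `(log Y)⁻¹ ∫_{Y^(1-δ)}^Y |log (A P*(y) / (e^γ log y)^m)| dy/y → 0` along a sequence `Y → ∞`, then moreover `A = |a|`
   for the leading coefficient `a` of `F` at `1/2`; e.g. `A = |L^S(1/2, χ)|` if `m = 0`.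
4. (Nothing assumed on the products.) If `F` has no real poles `> 1/2`, `m = ord_{s=1/2} F` and `A > |a|`, then there is
   a `β > 0` with `∫_{Y^(1-δ)}^Y max (log (A P*(y) / (e^γ log y)^m), 0) dy/y > β log Y` for ALL large `Y`.
5. (Equivalences.) Let `L(s, χ)` be holomorphic, of polynomial growth, in a half plane `Re s > 1/2 - η` (as is known for
   monomial and many other `χ ≠ 1`). Then for every `κ` the following are equivalent: (a) `L(s, χ) ≠ 0` for
   `Re s > 1/2`, and `ord_{s=1/2} L(s, χ) ≤ κ`; (b) the one-sided bound of 1 for arbitrarily large `Y`, for some `B`;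
   (c) the same for all large `Y`. Likewise for `ord_{s=1/2} L(s, χ) = m` and the bound of 2.
6. (Statements (ii) and (iii) of the problem.) In 5. suppose that `ord_{s=1/2} L(s, χ)` has the parity of `w ∈ {0, 1}`;
   by the functional equation this is so for orthogonal `χ` with `w = 0` and for symplectic `χ` with
   `w = (1 - W(χ))/2`. Then for EVERY `κ` with `w ≤ κ < w + 2` the Riemann hypothesis for `L(s, χ)` together with
   `ord_{s=1/2} L(s, χ) = w` is equivalent to the one-sided bound with the exponent `κ` for arbitrarily large `Y`.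
   So, assuming the Riemann hypothesis, (iii) for a symplectic `χ` with `W(χ) = 1`, and (ii) for an orthogonal `χ`, say
   that the mean values of `log P(y)` do not exceed `κ log log y + B` on one sparse sequence of windows for one
   exponent `κ < 2`. For unitary `χ` the exponents `0 ≤ κ < 1` are possible by 5.

In the problem `P(x)` is expected to be of the order of `1` for orthogonal and unitary `χ ≠ 1` and of the order of
`(log x)^w` for symplectic `χ`, in this mean sense.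

The proof: the theorem on means over windows of `Pool.Agent.Q18.W` applied to `L(s, χ) L(s, conj χ)`.
-/

set_option autoImplicit false
set_option linter.unusedSectionVars false

namespace Pool.Agent.Results.MP_3b6604_nt.CentralEulerProducts

open Filter Topology Set Complex NumberField IsDedekindDomain MeasureTheory ComplexConjugate
open Pool.Agent.Q18.P (norm upTo MeanBound excess error ratio eig eig_det eig_norm eig_trace)

variable {K : Type} [Field K] [NumberField K] {G : Type} [Group G] [Finite G] {n : ℕ}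

/-- `det (1 - q_v^{-s} ρ(φ(v)))` -/
noncomputable def factor (φ : HeightOneSpectrum (𝓞 K) → G) (ρ : G →* Matrix (Fin n) (Fin n) ℂ)
    (v : HeightOneSpectrum (𝓞 K)) (s : ℂ) : ℂ :=
  (1 - (norm v : ℂ) ^ (-s) • ρ (φ v)).det

/-- The Euler product of the incomplete Artin `L`-function for `Re s > 1`. -/
def Euler (S : Finset (HeightOneSpectrum (𝓞 K))) (φ : HeightOneSpectrum (𝓞 K) → G)
    (ρ : G →* Matrix (Fin n) (Fin n) ℂ) (F : ℂ → ℂ) : Prop :=
  ∀ s : ℂ, 1 < s.re → HasProd (fun v : {v : HeightOneSpectrum (𝓞 K) // v ∉ S} => (factor φ ρ v.1 s)⁻¹) (F s)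

/-- `F` is holomorphic and of polynomial growth in a half plane `Re s > 1/2 - η`. -/
def Holomorphic (F : ℂ → ℂ) : Prop :=
  ∃ (η C : ℝ) (k : ℕ), 0 < η ∧ ∀ s : ℂ, 1 / 2 - η < s.re → DifferentiableAt ℂ F s ∧ ‖F s‖ ≤ C * (1 + ‖s‖) ^ k

/-- `P(y) = ∏_{v ∉ S, q_v ≤ y} |det (1 - q_v^{-1/2} ρ(φ(v)))|` -/
noncomputable def product (S : Finset (HeightOneSpectrum (𝓞 K))) (φ : HeightOneSpectrum (𝓞 K) → G)
    (ρ : G →* Matrix (Fin n) (Fin n) ℂ) (y : ℝ) : ℝ :=
  ∏ᶠ v ∈ upTo S y, ‖factor φ ρ v (1 / 2)‖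

/-- `P*(y) = exp (- ∑_{v ∉ S, q_v^k ≤ y} Re χ(φ(v)^k) / (k q_v^{k/2}))`, `k = p.2 + 1` -/
noncomputable def productStar (S : Finset (HeightOneSpectrum (𝓞 K))) (φ : HeightOneSpectrum (𝓞 K) → G)
    (ρ : G →* Matrix (Fin n) (Fin n) ℂ) (y : ℝ) : ℝ :=
  Real.exp (-∑ᶠ (p : {v : HeightOneSpectrum (𝓞 K) // v ∉ S} × ℕ) (_ : (norm p.1.1 : ℝ) ^ (p.2 + 1) ≤ y),
    (ρ (φ p.1.1 ^ (p.2 + 1))).trace.re / (((p.2 : ℝ) + 1) * ((norm p.1.1 : ℝ) ^ (1 / 2 : ℝ)) ^ (p.2 + 1)))

/-- the order of `F` at `1/2` is `m` -/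
def CentralOrder (F : ℂ → ℂ) (m : ℤ) : Prop := meromorphicOrderAt F ((1 / 2 : ℝ) : ℂ) = m

/-- `a` is the leading coefficient of `F` at `1/2`, where the order of `F` is `m` -/
def IsLeading (F : ℂ → ℂ) (m : ℤ) (a : ℂ) : Prop :=
  CentralOrder F m ∧ Tendsto (fun s : ℂ => F s / (s - ((1 / 2 : ℝ) : ℂ)) ^ m) (𝓝[≠] ((1 / 2 : ℝ) : ℂ)) (𝓝 a)

/-- `F` has no real poles `> 1/2` -/
def NoRealPoles (F : ℂ → ℂ) : Prop := ∀ x : ℝ, 1 / 2 < x → 0 ≤ meromorphicOrderAt F (x : ℂ)

/-- no zeros and no poles with `Re s > 1/2`, if the character is real-valued; in any case the orders at `s` and at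
`conj s` add up to zero -/
def Clean (ρ : G →* Matrix (Fin n) (Fin n) ℂ) (F : ℂ → ℂ) : Prop :=
  (∀ s : ℂ, 1 / 2 < s.re → meromorphicOrderAt F s + meromorphicOrderAt F (conj s) = 0) ∧
  ((∀ g, (ρ g).trace.im = 0) → ∀ s : ℂ, 1 / 2 < s.re → meromorphicOrderAt F s = 0)

/-- `F` has no zeros with `Re s > 1/2` -/
def NoZeros (F : ℂ → ℂ) : Prop := ∀ s : ℂ, 1 / 2 < s.re → F s ≠ 0

/-! ### translation -/

variable {S : Finset (HeightOneSpectrum (𝓞 K))} {φ : HeightOneSpectrum (𝓞 K) → G}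
  {ρ : G →* Matrix (Fin n) (Fin n) ℂ} {F : ℂ → ℂ}

theorem half_c : (1 / 2 : ℝ) = (((0 : ℕ) : ℝ) + 1) / 2 := by norm_num

theorem bdd (S : Finset (HeightOneSpectrum (𝓞 K))) (φ : HeightOneSpectrum (𝓞 K) → G)
    (ρ : G →* Matrix (Fin n) (Fin n) ℂ) : Pool.Agent.Q18.P.Bdd 0 S fun v => eig ρ (φ v) := by
  intro v _ j
  rw [eig_norm]
  simp

theorem pure (S : Finset (HeightOneSpectrum (𝓞 K))) (φ : HeightOneSpectrum (𝓞 K) → G)
    (h : ∀ g, (ρ g).trace.im = 0) : Pool.Agent.Q18.P.Pure 0 S fun v => eig ρ (φ v) :=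
  ⟨bdd S φ ρ, fun v _ k => by rw [eig_trace]; exact h _⟩

theorem factor_eq (v : HeightOneSpectrum (𝓞 K)) (s : ℂ) :
    factor φ ρ v s = ∏ j, (1 - eig ρ (φ v) j * (norm v : ℂ) ^ (-s)) := eig_det _ _ _

theorem product_eq : product S φ ρ = Pool.Agent.Q18.P.product (1 / 2) S fun v => eig ρ (φ v) := by
  funext y
  unfold product Pool.Agent.Q18.P.product
  refine finprod_congr fun v => finprod_congr fun _ => ?_
  rw [factor_eq]
  push_cast
  rfl

theorem star_eq : productStar S φ ρ = Pool.Agent.Q18.P.productStar (1 / 2) S fun v => eig ρ (φ v) := by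
  funext y
  unfold productStar Pool.Agent.Q18.P.productStar
  congr 2
  refine finsum_congr fun p => finsum_congr fun _ => ?_
  rw [eig_trace]

theorem euler_eq (h : Euler S φ ρ F) {s : ℂ} (hs : (1 / 2 : ℝ) + 1 / 2 < s.re) :
    HasProd (fun v : {v : HeightOneSpectrum (𝓞 K) // v ∉ S} =>
      (∏ j, (1 - eig ρ (φ v.1) j * (norm v.1 : ℂ) ^ (-s)))⁻¹) (F s) := by
  refine (h s (by linarith)).congr_fun fun v => ?_
  rw [factor_eq]

theorem cont (h1 : ∀ s, MeromorphicAt F s) (h2 : Euler S φ ρ F) :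
    Pool.Agent.Q18.P.Continues (1 / 2) S (fun v => eig ρ (φ v)) F :=
  ⟨fun s _ => h1 s, h1 _, fun _ hs => euler_eq h2 hs⟩

theorem temp (h1 : Holomorphic F) (h2 : Euler S φ ρ F) :
    Pool.Agent.Q18.P.Tempered (1 / 2) S (fun v => eig ρ (φ v)) F := by
  obtain ⟨η, C, k, hη, h⟩ := h1
  refine ⟨⟨η, C, 0, k, F, hη, h, fun s _ _ => by rw [pow_zero, one_mul]⟩, fun _ hs => euler_eq h2 hs⟩

/-- **Central orders of Artin `L`-functions and means of Euler products over one sequence of windows.** -/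
theorem result (K : Type) [Field K] [NumberField K] (G : Type) [Group G] [Finite G] (n : ℕ)
    (S : Finset (HeightOneSpectrum (𝓞 K))) (φ : HeightOneSpectrum (𝓞 K) → G)
    (ρ : G →* Matrix (Fin n) (Fin n) ℂ) (F : ℂ → ℂ) (hE : Euler S φ ρ F) (δ : ℝ) (h0 : 0 < δ) (h1 : δ < 1) :
    -- (1)-(4): `F` is meromorphic (Brauer)
    ((∀ s, MeromorphicAt F s) →
      (NoRealPoles F → ∀ κ B : ℝ, (∃ᶠ Y : ℝ in atTop, MeanBound δ (excess (product S φ ρ) κ) B Y) →
        Clean ρ F ∧ ∃ m : ℤ, CentralOrder F m ∧ (m : ℝ) ≤ κ) ∧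
      (∀ ρ' B : ℝ, (∃ᶠ Y : ℝ in atTop, MeanBound δ (error (product S φ ρ) ρ') B Y) →
        Clean ρ F ∧ ∃ m : ℤ, ρ' = m ∧ CentralOrder F m) ∧
      (∀ ρ' A : ℝ, 0 < A → (∀ ε : ℝ, 0 < ε → ∃ᶠ Y : ℝ in atTop,
          MeanBound δ (fun y => |ratio (productStar S φ ρ) A ρ' y|) ε Y) →
        Clean ρ F ∧ ∃ m : ℤ, ρ' = m ∧ CentralOrder F m ∧ ∀ a : ℂ, IsLeading F m a → ‖a‖ = A) ∧
      (NoRealPoles F → ∀ (m : ℤ) (a : ℂ), IsLeading F m a → ∀ A : ℝ, ‖a‖ < A → ∃ β : ℝ, 0 < β ∧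
        ∀ᶠ Y : ℝ in atTop, ¬ MeanBound δ (fun y => max (ratio (productStar S φ ρ) A m y) 0) β Y)) ∧
    -- (5), (6): equivalences, for holomorphic `F`
    (Holomorphic F →
      (∀ κ : ℝ, List.TFAE [
        NoZeros F ∧ ∃ m : ℤ, CentralOrder F m ∧ (m : ℝ) ≤ κ,
        ∃ B : ℝ, ∃ᶠ Y : ℝ in atTop, MeanBound δ (excess (product S φ ρ) κ) B Y,
        ∃ B : ℝ, ∀ᶠ Y : ℝ in atTop, MeanBound δ (excess (product S φ ρ) κ) B Y]) ∧
      (∀ m : ℤ, List.TFAE [
        NoZeros F ∧ CentralOrder F m,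
        ∃ B : ℝ, ∃ᶠ Y : ℝ in atTop, MeanBound δ (error (product S φ ρ) m) B Y,
        ∃ B : ℝ, ∀ᶠ Y : ℝ in atTop, MeanBound δ (error (product S φ ρ) m) B Y]) ∧
      (∀ w : ℤ, w = 0 ∨ w = 1 → (∀ m : ℤ, CentralOrder F m → 2 ∣ m - w) → ∀ κ : ℝ, w ≤ κ → κ < w + 2 → List.TFAE [
        NoZeros F ∧ CentralOrder F w,
        ∃ B : ℝ, ∃ᶠ Y : ℝ in atTop, MeanBound δ (excess (product S φ ρ) κ) B Y,
        ∃ B : ℝ, ∀ᶠ Y : ℝ in atTop, MeanBound δ (excess (product S φ ρ) κ) B Y])) := by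
  have hb := bdd S φ ρ
  rw [product_eq, star_eq]
  refine ⟨fun hm => ?_, fun hH => ?_⟩
  · have hC := cont hm hE
    refine ⟨fun hr κ B h => ?_, fun ρ' B h => ?_, fun ρ' A hA h => ?_, fun hr m a ha A hA => ?_⟩
    · obtain ⟨f1, m, f2, f3⟩ := Pool.Agent.Q18.P.one' half_c hb hC hr h0 h1 h
      exact ⟨⟨f1, fun hρ => (Pool.Agent.Q18.P.one half_c (pure S φ hρ) hC hr h0 h1 h).1⟩, m, f2, f3⟩
    · obtain ⟨f1, m, f2, f3⟩ := Pool.Agent.Q18.P.two' half_c hb hC h0 h1 h
      exact ⟨⟨f1, fun hρ => (Pool.Agent.Q18.P.two half_c (pure S φ hρ) hC h0 h1 h).1⟩, m, f2, f3⟩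
    · obtain ⟨f1, m, f2, f3, f4⟩ := Pool.Agent.Q18.P.lim' half_c hb hC h0 h1 hA h
      exact ⟨⟨f1, fun hρ => (Pool.Agent.Q18.P.lim half_c (pure S φ hρ) hC h0 h1 hA h).1⟩, m, f2, f3, f4⟩
    · exact Pool.Agent.Q18.P.omega' half_c hb hC hr h0 h1 (e := m) (a := a) ha hA
  · have hT := temp hH hE
    have t1 := fun κ : ℝ => Pool.Agent.Q18.P.tfae_one' half_c hb hT h0 h1 κ
    refine ⟨t1, fun m => ?_, fun w hw hp κ hκ hκ2 => ?_⟩
    · have t := Pool.Agent.Q18.P.tfae_two' half_c hb hT h0 h1 (m : ℝ)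
      have e1 : (Pool.Agent.Q18.P.NoZeros (1 / 2) F ∧ ∃ e : ℤ, (m : ℝ) = e ∧
          meromorphicOrderAt F ((1 / 2 : ℝ) : ℂ) = e) ↔ NoZeros F ∧ CentralOrder F m := by
        refine and_congr_right fun _ => ⟨?_, fun h => ⟨m, rfl, h⟩⟩
        rintro ⟨e, h2, h3⟩
        have : m = e := by exact_mod_cast h2
        rw [this]
        exact h3
      rw [e1] at t
      exact t
    · have t := t1 κ
      have han := (Pool.Agent.Q18.P.of_tempered hT).2
      have e1 : (Pool.Agent.Q18.P.NoZeros (1 / 2) F ∧ ∃ e : ℤ, meromorphicOrderAt F ((1 / 2 : ℝ) : ℂ) = e ∧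
          (e : ℝ) ≤ κ) ↔ NoZeros F ∧ CentralOrder F w := by
        refine and_congr_right fun _ => ⟨?_, fun h => ⟨w, h, hκ⟩⟩
        rintro ⟨e, h2, h3⟩
        have ha : AnalyticAt ℂ F ((1 / 2 : ℝ) : ℂ) := by
          obtain ⟨η, C, k, hη, h⟩ := hH
          have ho : IsOpen {s : ℂ | 1 / 2 - η < s.re} := isOpen_lt continuous_const Complex.continuous_re
          have hd : DifferentiableOn ℂ F {s : ℂ | 1 / 2 - η < s.re} := fun s hs => (h s hs).1.differentiableWithinAt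
          refine hd.analyticAt (ho.mem_nhds ?_)
          show 1 / 2 - η < ((1 / 2 : ℝ) : ℂ).re
          rw [Complex.ofReal_re]
          linarith
        have h4 : (0 : ℤ) ≤ e := (Pool.Agent.Q18.P.order_nat ha h2).1
        have h5 : e = w := Pool.Agent.Q18.P.parity (by omega) (by omega) hκ2 h4 h3 (hp e h2)
        rw [← h5]
        exact h2
      rw [e1] at t
      exact t

end Pool.Agent.Results.MP_3b6604_nt.CentralEulerProducts
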