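import Pool.Agent.Q5.LI.Ord

/-!
# Linear independence and minimal central orders of Artin `L`-functions: one random error term decides all

`G` is a finite group (the Galois group of `F/ℚ`), `(ρ_i)` a finite family of representations whose total character is
real (for instance all irreducible representations different from the trivial one), `φ(p) ∈ G` (a Frobenius element)
for the primes `p ∉ S`.
-/

set_option autoImplicit false

open MeasureTheory Filter Topology Set Complex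
open scoped Classical

namespace Pool.Agent.Results.MP_3b6604_nt.OneErrorTerm

open Pool.Agent.Q5.LI

variable {G : Type} [Group G] [Finite G] {ι : Type} [Fintype ι] {d : ι → ℕ}

/-- `L` is the Artin `L`-function of `ρ`: the Euler product `∏_{p ∉ S} det(1 - p^(-s) ρ(φ(p)))⁻¹` for `Re s > 1`,
continued to a holomorphic function of polynomial growth on a half plane `Re s > 1/2 - η`, `η > 0`. -/
def IsArtin {n : ℕ} (S : Set Nat.Primes) (φ : Nat.Primes → G) (ρ : G →* Matrix (Fin n) (Fin n) ℂ)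
    (L : ℂ → ℂ) : Prop :=
  (∀ s : ℂ, 1 < s.re → HasProd (fun p : Nat.Primes =>
    if p ∈ S then 1 else ((1 - (p : ℂ) ^ (-s) • ρ (φ p)).det)⁻¹) (L s)) ∧
  ∃ (η C : ℝ) (κ : ℕ), 0 < η ∧
    ∀ s : ℂ, 1 / 2 - η < s.re → DifferentiableAt ℂ L s ∧ ‖L s‖ ≤ C * (1 + ‖s‖) ^ κ

/-- `R(x) = ∑_{p^k ≤ x, p ∉ S} (∑_i Re tr ρ_i(φ(p)^k))/(k p^{k/2})`; the index `z = (p, k - 1)` -/
noncomputable def primeSum (S : Set Nat.Primes) (φ : Nat.Primes → G)
    (ρ : (i : ι) → G →* Matrix (Fin (d i)) (Fin (d i)) ℂ) (x : ℝ) : ℝ :=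
  ∑ᶠ (z : Nat.Primes × ℕ) (_ : (z.1 : ℝ) ^ (z.2 + 1) ≤ x),
    (∑ i, if z.1 ∈ S then 0 else (ρ i (φ z.1 ^ (z.2 + 1))).trace).re /
      (((z.2 : ℝ) + 1) * √(z.1 : ℝ) ^ (z.2 + 1))

/-- the error term `E(x) = log x · (log A - R(x) - m (γ + log log x))` (`γ` Euler's constant) -/
noncomputable def error (S : Set Nat.Primes) (φ : Nat.Primes → G)
    (ρ : (i : ι) → G →* Matrix (Fin (d i)) (Fin (d i)) ℂ) (m A x : ℝ) : ℝ :=
  Real.log x * (Real.log A - primeSum S φ ρ x -
    m * (Real.eulerMascheroniConstant + Real.log (Real.log x)))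

/-- no zeros with real part `> 1/2` -/
def GRH (L : ι → ℂ → ℂ) : Prop := ∀ i, ∀ s : ℂ, 1 / 2 < s.re → L i s ≠ 0

/-- `∏ L_i` has a zero of order `m` at `1/2`, with leading coefficient `A` -/
def Leading (L : ι → ℂ → ℂ) (m A : ℝ) : Prop :=
  ∃ k : ℕ, m = k ∧ Tendsto (fun s : ℂ => (∏ i, L i s) / (s - 1 / 2) ^ k) (𝓝[≠] (1 / 2 : ℂ)) (𝓝 (A : ℂ))

/-- the number of times `t` occurs in the multiset of the ordinates of the zeros `1/2 + it` of the `L_i` -/
noncomputable def mult (L : ι → ℂ → ℂ) (t : ℝ) : ℕ := ∑ i, (analyticOrderAt (L i) (1 / 2 + t * I)).toNat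

/-- the multiset of the positive ordinates is linearly independent over `ℚ` -/
def Independent (L : ι → ℂ → ℂ) : Prop :=
  (∀ t : ℝ, 0 < t → mult L t ≤ 1) ∧ LinearIndepOn ℚ id {t : ℝ | 0 < t ∧ mult L t ≠ 0}

/-- the Bessel function `J₀(x) = ∑ (-(x/2)²)^k/(k!)²` -/
noncomputable def J0 (x : ℝ) : ℝ := ∑' k : ℕ, (-(x / 2) ^ 2) ^ k / ((k.factorial : ℝ) ^ 2)

/-- **The random model** for `E`, with the multiplicities `M t` of the ordinates: for all `h_j ≥ 0` and real `ξ_j`
the mean of `exp (i ∑ ξ_j E(x e^{h_j}))` with respect to `dx/x` is the product over `t > 0` of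
`J₀(2 |∑ ξ_j e^{i t h_j}|/t)^(M t)`. -/
def Follows (M : ℝ → ℕ) (E : ℝ → ℝ) : Prop :=
  ∀ (k : ℕ) (h ξ : Fin k → ℝ), (∀ j, 0 ≤ h j) →
    ∃ z : ℂ, HasProd (fun t : ℝ =>
        (((if 0 < t then J0 (2 * (‖∑ j, (ξ j : ℂ) * exp ((t * h j : ℝ) * I)‖ / t)) ^ M t else 1) : ℝ) : ℂ)) z ∧
      Tendsto (fun X : ℝ => (∫ x in Real.exp 1..X,
        exp (((∑ j, ξ j * E (x * Real.exp (h j)) : ℝ) : ℂ) * I) / x) / Real.log X) atTop (𝓝 z)

/-- `(log X)⁻¹ ∫_e^X E(x)² dx/x` is bounded for large `X` -/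
def BoundedMeanSquare (E : ℝ → ℝ) : Prop :=
  ∃ B : ℝ, ∀ᶠ X : ℝ in atTop, ∫ x in Real.exp 1..X, E x ^ 2 / x ≤ B * Real.log X

/-! ### proofs -/

theorem follows_iff {M : ℝ → ℕ} {E W : ℝ → ℝ} (h : ∀ x, Real.exp 1 ≤ x → E x = W x) :
    Follows M E ↔ RandomModel M W := by
  unfold Follows RandomModel
  refine forall_congr' fun k => forall_congr' fun h' => forall_congr' fun ξ => forall_congr' fun hh => ?_
  refine exists_congr fun L => ?_
  have e : ∀ t : ℝ, (if 0 < t then J0 (2 * (‖∑ j, (ξ j : ℂ) * exp ((t * h' j : ℝ) * I)‖ / t)) ^ M t else 1) =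
      fac M (kf h' ξ t) t := by
    intro t
    unfold fac
    split_ifs with ht
    · congr 1
      unfold J0 bz bt kf
      refine tsum_congr fun k => ?_
      rw [norm_div, Complex.norm_real, Real.norm_of_nonneg ht.le, mul_div_cancel_left₀ _ two_ne_zero]
    · rfl
  simp only [e]
  refine and_congr_right fun _ => tendsto_congr' ?_
  filter_upwards [eventually_ge_atTop (Real.exp 1)] with X hX
  congr 1
  refine intervalIntegral.integral_congr fun x hx => ?_
  rw [uIcc_of_le hX] at hx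
  have e : ∀ j, E (x * Real.exp (h' j)) = W (x * Real.exp (h' j)) := by
    intro j
    refine h _ ?_
    have h1 : 1 ≤ Real.exp (h' j) := Real.one_le_exp (hh j)
    have h2 : 0 < x := (Real.exp_pos 1).trans_le hx.1
    nlinarith [hx.1]
  simp only [e]

theorem bounded_iff {E f : ℝ → ℝ} (h : ∀ x, Real.exp 1 ≤ x → E x = Real.log x * f x) :
    BoundedMeanSquare E ↔ Pool.Agent.Q5.BP.BSq f := by
  unfold BoundedMeanSquare Pool.Agent.Q5.BP.BSq
  refine exists_congr fun B => ?_
  constructor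
  · intro h1
    filter_upwards [h1, eventually_ge_atTop (Real.exp 1)] with X hX hX1
    refine le_trans (le_of_eq ?_) hX
    refine intervalIntegral.integral_congr fun x hx => ?_
    rw [uIcc_of_le hX1] at hx
    rw [h x hx.1]
  · intro h1
    filter_upwards [h1, eventually_ge_atTop (Real.exp 1)] with X hX hX1
    refine le_trans (le_of_eq ?_) hX
    refine intervalIntegral.integral_congr fun x hx => ?_
    rw [uIcc_of_le hX1] at hx
    rw [h x hx.1]

/-- **Theorem.** Let `w_i` be lower bounds for the central orders of the `L_i` (`w_i = 1` for the symplectic `ρ_i` with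
root number `-1`, and `w_i = 0` otherwise). The Riemann hypothesis for all `L_i`, the linear independence of the multiset
of all positive ordinates and the equality of all central orders with the `w_i` hold together if and only if for
some `A > 0` the ONE error term `E` with `m = ∑ w_i` has bounded mean squares and follows the random model. -/
theorem result (S : Set Nat.Primes) (φ : Nat.Primes → G)
    (ρ : (i : ι) → G →* Matrix (Fin (d i)) (Fin (d i)) ℂ) (L : ι → ℂ → ℂ)
    (hreal : ∀ g : G, (∑ i, (ρ i g).trace).im = 0) (hL : ∀ i, IsArtin S φ (ρ i) (L i))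
    (w : ι → ℕ) (hw : ∀ i, (w i : ℕ∞) ≤ analyticOrderAt (L i) (1 / 2)) :
    (GRH L ∧ Independent L ∧ ∀ i, analyticOrderAt (L i) (1 / 2) = w i) ↔
      ∃ A : ℝ, 0 < A ∧ BoundedMeanSquare (error S φ ρ (∑ i, w i : ℕ) A) ∧
        Follows (mult L) (error S φ ρ (∑ i, w i : ℕ) A) := by
  have hp : ∀ i (s : ℂ), 1 < s.re → HasProd (lf (ρ i) φ S s) (L i s) := fun i s hs => (hL i).1 s hs
  have H : Fam (aA ρ φ S) L := art_fam hreal (fun i => (hL i).2) hp
  have T := fam_temp H
  have herr : ∀ m A : ℝ, 0 < A → ∀ x, Real.exp 1 ≤ x →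
      error S φ ρ m A x = Real.log x * dStarH (aS (aA ρ φ S)) m A x := by
    intro m A hA x hx
    rw [art_err (T := fun z => ∑ i, trS (ρ i) φ S z) (fun z => ?_) hA hx]
    · rfl
    · rw [aS_sum]
      exact Finset.sum_congr rfl fun i _ => aA_trace i z
  have key : ∀ m A : ℝ, 0 < A → (GRH L ∧ Leading L m A ∧ Independent L ↔
      BoundedMeanSquare (error S φ ρ m A) ∧ Follows (mult L) (error S φ ρ m A)) := by
    intro m A hA
    rw [bounded_iff (herr m A hA), follows_iff (herr m A hA), ← and_assoc]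
    exact fam_tfae H hA
  obtain ⟨w₁, hw₁, h0⟩ := tempH_ne (fam_roots H) (fam_temp H)
  rw [Finset.prod_ne_zero_iff] at h0
  have h1 : ∀ i, AnalyticAt ℂ (L i) (1 / 2) ∧ analyticOrderAt (L i) (1 / 2) ≠ ⊤ :=
    fun i => cont_ord (hL i).2 hw₁ (h0 i (Finset.mem_univ i)) (by norm_num)
  have hsum := ord_prod Finset.univ L (1 / 2) (fun i _ => (h1 i).1) fun i _ => (h1 i).2
  have hw2 : ∀ i, w i ≤ (analyticOrderAt (L i) (1 / 2)).toNat := by
    intro i
    have h2 := hw i
    rw [← ENat.coe_toNat (h1 i).2] at h2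
    exact_mod_cast h2
  have hlead : ∀ (m A : ℝ), 0 < A → Leading L m A →
      (∑ i, ((analyticOrderAt (L i) (1 / 2)).toNat : ℝ)) = m := by
    intro m A hA h
    have h2 := order_lead T hA h
    rw [hsum] at h2
    rw [← h2]
    push_cast
    rfl
  constructor
  · rintro ⟨k1, k2, k3⟩
    have hR : RHH fun s => ∏ i, L i s := fam_rh.2 k1
    obtain ⟨r, A, hA, hr⟩ := lead_existsH (fam_roots H) T hR
    have k4 : Leading L (r : ℝ) A := ⟨r, rfl, hr⟩
    have k5 := hlead _ A hA k4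
    have k6 : ((∑ i, w i : ℕ) : ℝ) = r := by
      rw [← k5]
      push_cast
      refine Finset.sum_congr rfl fun i _ => ?_
      rw [k3 i]
      rfl
    rw [k6]
    exact ⟨A, hA, (key _ A hA).1 ⟨k1, k4, k2⟩⟩
  · rintro ⟨A, hA, h⟩
    obtain ⟨k1, k2, k3⟩ := (key _ A hA).2 h
    refine ⟨k1, k3, ?_⟩
    have k4 := hlead _ A hA k2
    have k5 : ∑ i, w i = ∑ i, (analyticOrderAt (L i) (1 / 2)).toNat := by
      have : ((∑ i, w i : ℕ) : ℝ) = ((∑ i, (analyticOrderAt (L i) (1 / 2)).toNat : ℕ) : ℝ) := by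
        rw [← k4]
        push_cast
        rfl
      exact_mod_cast this
    intro i
    have k6 := (Finset.sum_eq_sum_iff_of_le fun i _ => hw2 i).1 k5 i (Finset.mem_univ i)
    rw [← ENat.coe_toNat (h1 i).2, ← k6]

end Pool.Agent.Results.MP_3b6604_nt.OneErrorTerm
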