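import Mathlib
import Pool.Agent.Q18.P.Artin
import Pool.Agent.Q190.RV.Pure

/-!
# The central order of Artin `L`-functions and the ratios `P(y^l) / P(y)` of Euler products

Let `ρ` be a representation of degree `n` of the Galois group `G` of a finite extension of a number field `K` (`K = ℚ`
in the problem), `S` a finite set of places containing the ramified ones, `φ(v) ∈ G` a Frobenius element at `v ∉ S`,
`χ` the character of `ρ` and `F(s) = ∏_{v ∉ S} det (1 - q_v^{-s} ρ(Frob_v))⁻¹` the incomplete Artin `L`-function, which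
is supposed to be holomorphic and of polynomial growth in a half plane `Re s > 1/2 - η` (this is known for monomial and
many other `χ ≠ 1`). Let

`P(y) = ∏_{v ∉ S, q_v ≤ y} |det (1 - q_v^{-1/2} ρ(Frob_v))|`

be the partial Euler product at the centre, and `m = ord_{s=1/2} L(s, χ)`. The character need not be real-valued, and
nothing is supposed about the zeros of `F`. We prove:

1. ONE exponent `l > 1`, one-sided: if `P(y^l) ≤ Q P(y)` for all large `y`, then `F` has no zeros with `Re s > 1/2` (the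
   Riemann hypothesis for `L(s, χ)`), and `l^m ≤ Q`. For instance `P(y²) ≤ 1.99 P(y)` for all large `y` implies
   `L(1/2, χ) ≠ 0`. In other words: `limsup P(y^l) / P(y) ≥ l^m` for every `l > 1`, and the limsup is infinite for every
   `l > 1` if `L(s, χ)` has a zero with `Re s > 1/2`.
2. One exponent, two-sided: if `q P(y) ≤ P(y^l) ≤ Q P(y)` for all large `y`, `q > 0`, then moreover `q ≤ l^m ≤ Q`; so the
   order is determined by these bounds if `Q < l q`.
3. If `P(y^l) / P(y)` converges for one `l > 1`, then the limit is `l^m`, and the Riemann hypothesis for `L(s, χ)` holds.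
4. For every real number `κ` the following are equivalent: `c (log y)^κ ≤ P(y) ≤ C (log y)^κ` for some `c > 0`, `C` and
   all large `y`; and: `κ = m`, and for all `l` in some set of positive outer measure in `(1, ∞)` there is a `Q(l)` with
   `P(y^l) ≤ Q(l) P(y)` for all large `y` (one-sided, pointwise in `l`). The last condition implies the Riemann
   hypothesis for `L(s, χ)`, and two-sided bounds for all `l > 0`.
5. (Statements (ii) and (iii) of the problem.) Suppose that `m` has the parity of `w ∈ {0, 1}`; by the functional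
   equation this is so for orthogonal `χ` with `w = 0` and for symplectic `χ` with `w = (1 - W(χ))/2`. If
   `P(y^l) ≤ Q P(y)` for all large `y`, for one `l > 1` and one `Q < l^(w+2)`, then `m = w`, and the Riemann hypothesis for
   `L(s, χ)` holds; if `P(y)` lies between two positive multiples of `(log y)^κ` for large `y`, `κ` a real number
   `< w + 2`, then `m = w` as well.

So (ii) for an orthogonal `χ` holds as soon as `limsup P(y²) / P(y) < 4`, and (iii) for a symplectic `χ` with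
`W(χ) = -1` as soon as `limsup P(y²) / P(y) < 8`.

The proof: for `|F(s)|²`, i.e. `F(s) conj F(conj s)`, the function `log P(exp (exp t)) - m t` is bounded in the mean over
bounded windows if there are no zeros (`Pool.Agent.TH270`), and bounds for one step give linear growth
(`Pool.Agent.Q115.RV`, `Pool.Agent.Q190.RV`).
-/

set_option autoImplicit false
set_option linter.unusedSectionVars false

namespace Pool.Agent.Results.MP_3b6604_nt.OneExponentRatios

open Filter Topology Set Complex NumberField IsDedekindDomain MeasureTheory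
open Pool.Agent.Q18.P (eig eig_det eig_norm)

variable {K : Type} [Field K] [NumberField K] {G : Type} [Group G] [Finite G] {n : ℕ}

/-- `q_v` -/
noncomputable def norm (v : HeightOneSpectrum (𝓞 K)) : ℕ := Ideal.absNorm v.asIdeal

/-- `det (1 - q_v^{-s} ρ(φ(v)))` -/
noncomputable def factor (φ : HeightOneSpectrum (𝓞 K) → G) (ρ : G →* Matrix (Fin n) (Fin n) ℂ)
    (v : HeightOneSpectrum (𝓞 K)) (s : ℂ) : ℂ :=
  (1 - (norm v : ℂ) ^ (-s) • ρ (φ v)).det

/-- The Euler product of the incomplete Artin `L`-function for `Re s > 1`. -/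
def Euler (S : Finset (HeightOneSpectrum (𝓞 K))) (φ : HeightOneSpectrum (𝓞 K) → G)
    (ρ : G →* Matrix (Fin n) (Fin n) ℂ) (F : ℂ → ℂ) : Prop :=
  ∀ s : ℂ, 1 < s.re → HasProd (fun v : {v : HeightOneSpectrum (𝓞 K) // v ∉ S} => (factor φ ρ v.1 s)⁻¹) (F s)

/-- `F` is holomorphic and of polynomial growth in a half plane `Re s > 1/2 - η`. -/
def Holomorphic (F : ℂ → ℂ) : Prop :=
  ∃ (η C : ℝ) (k : ℕ), 0 < η ∧ ∀ s : ℂ, 1 / 2 - η < s.re → DifferentiableAt ℂ F s ∧ ‖F s‖ ≤ C * (1 + ‖s‖) ^ k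

/-- `P(y) = ∏_{v ∉ S, q_v ≤ y} |det (1 - q_v^{-1/2} ρ(φ(v)))|` -/
noncomputable def product (S : Finset (HeightOneSpectrum (𝓞 K))) (φ : HeightOneSpectrum (𝓞 K) → G)
    (ρ : G →* Matrix (Fin n) (Fin n) ℂ) (y : ℝ) : ℝ :=
  ∏ᶠ v ∈ {v : HeightOneSpectrum (𝓞 K) | v ∉ S ∧ (norm v : ℝ) ≤ y}, ‖factor φ ρ v (1 / 2)‖

/-- the order of `F` at `1/2` is `m` -/
def CentralOrder (F : ℂ → ℂ) (m : ℕ) : Prop := analyticOrderAt F (1 / 2) = m

/-- `F` has no zeros with `Re s > 1/2` -/
def NoZeros (F : ℂ → ℂ) : Prop := ∀ s : ℂ, 1 / 2 < s.re → F s ≠ 0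

/-- `P(y^l) ≤ Q P(y)` for all large `y` -/
def Upper (P : ℝ → ℝ) (l Q : ℝ) : Prop := ∀ᶠ y : ℝ in atTop, P (y ^ l) ≤ Q * P y

/-- `q P(y) ≤ P(y^l)` for all large `y` -/
def Lower (P : ℝ → ℝ) (l q : ℝ) : Prop := ∀ᶠ y : ℝ in atTop, q * P y ≤ P (y ^ l)

/-- `P(y) ≍ (log y)^κ` -/
def OfOrder (P : ℝ → ℝ) (κ : ℝ) : Prop :=
  ∃ a b : ℝ, 0 < a ∧ ∀ᶠ y : ℝ in atTop, a * Real.log y ^ κ ≤ P y ∧ P y ≤ b * Real.log y ^ κ

/-- There is a set `Λ ⊆ (1, ∞)` of positive (outer) Lebesgue measure such that for every `l ∈ Λ` there is a `Q` with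
`P(y^l) ≤ Q P(y)` for all large `y`. -/
def Regular (P : ℝ → ℝ) : Prop :=
  ∃ Λ : Set ℝ, Λ ⊆ Ioi 1 ∧ volume Λ ≠ 0 ∧ ∀ l ∈ Λ, ∃ Q : ℝ, Upper P l Q

/-! ### translation -/

variable {S : Finset (HeightOneSpectrum (𝓞 K))} {φ : HeightOneSpectrum (𝓞 K) → G}
  {ρ : G →* Matrix (Fin n) (Fin n) ℂ} {F : ℂ → ℂ}

theorem half_c : (1 / 2 : ℝ) = (((0 : ℕ) : ℝ) + 1) / 2 := by norm_num

theorem bdd (S : Finset (HeightOneSpectrum (𝓞 K))) (φ : HeightOneSpectrum (𝓞 K) → G)
    (ρ : G →* Matrix (Fin n) (Fin n) ℂ) : Pool.Agent.Q18.P.Bdd 0 S fun v => eig ρ (φ v) := by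
  intro v _ j
  rw [eig_norm]
  simp

theorem factor_eq (v : HeightOneSpectrum (𝓞 K)) (s : ℂ) :
    factor φ ρ v s = ∏ j, (1 - eig ρ (φ v) j * (norm v : ℂ) ^ (-s)) := eig_det _ _ _

theorem product_eq : product S φ ρ = Pool.Agent.Q18.P.product (1 / 2) S fun v => eig ρ (φ v) := by
  funext y
  unfold product Pool.Agent.Q18.P.product
  refine finprod_congr fun v => finprod_congr fun _ => ?_
  rw [factor_eq]
  push_cast
  rfl

theorem holo (h1 : Holomorphic F) (h2 : Euler S φ ρ F) :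
    Pool.Agent.Q190.RV.Holo (1 / 2) S (fun v => eig ρ (φ v)) F := by
  refine ⟨h1, fun s hs => (h2 s (by linarith)).congr_fun fun v => ?_⟩
  rw [factor_eq]
  rfl

/-- **Central orders of Artin `L`-functions and ratios of Euler products.** -/
theorem result (K : Type) [Field K] [NumberField K] (G : Type) [Group G] [Finite G] (n : ℕ)
    (S : Finset (HeightOneSpectrum (𝓞 K))) (φ : HeightOneSpectrum (𝓞 K) → G)
    (ρ : G →* Matrix (Fin n) (Fin n) ℂ) (F : ℂ → ℂ) (hE : Euler S φ ρ F) (hH : Holomorphic F) :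
    ∃ m : ℕ, CentralOrder F m ∧
      -- (1) one exponent, one-sided
      (∀ l Q : ℝ, 1 < l → Upper (product S φ ρ) l Q → NoZeros F ∧ l ^ m ≤ Q) ∧
      -- (2) one exponent, two-sided
      (∀ l q Q : ℝ, 1 < l → 0 < q → Lower (product S φ ρ) l q → Upper (product S φ ρ) l Q →
        NoZeros F ∧ q ≤ l ^ m ∧ l ^ m ≤ Q) ∧
      -- (3) convergence of the ratio
      (∀ l r : ℝ, 1 < l → Tendsto (fun y : ℝ => product S φ ρ (y ^ l) / product S φ ρ y) atTop (𝓝 r) →
        NoZeros F ∧ r = l ^ m) ∧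
      -- (4) the order of magnitude
      (∀ κ : ℝ, OfOrder (product S φ ρ) κ ↔ κ = m ∧ Regular (product S φ ρ)) ∧
      (Regular (product S φ ρ) → NoZeros F ∧ ∀ l : ℝ, 0 < l → ∃ a b : ℝ, 0 < a ∧
        Lower (product S φ ρ) l a ∧ Upper (product S φ ρ) l b) ∧
      -- (5) statements (ii) and (iii)
      ∀ w : ℕ, w ≤ 1 → (2 : ℤ) ∣ m - w →
        (∀ l Q : ℝ, 1 < l → Q < l ^ (w + 2) → Upper (product S φ ρ) l Q → NoZeros F ∧ m = w) ∧
        (∀ κ : ℝ, κ < w + 2 → OfOrder (product S φ ρ) κ → NoZeros F ∧ m = w) := by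
  have hb := bdd S φ ρ
  have hF := holo hH hE
  obtain ⟨m, hm⟩ := hF.order_finite' half_c hb
  have hm' : CentralOrder F m := by
    unfold CentralOrder
    rw [← hm]
    push_cast
    rfl
  obtain ⟨o1, o2⟩ := Pool.Agent.Q190.RV.order_law half_c hb hF hm
  rw [← product_eq] at o1 o2
  have u1 : ∀ l Q : ℝ, 1 < l → Upper (product S φ ρ) l Q → NoZeros F ∧ l ^ m ≤ Q := by
    intro l Q hl h
    unfold Upper at h
    rw [product_eq] at h
    exact Pool.Agent.Q190.RV.one_upper half_c hb hF hm hl h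
  have low : ∀ w : ℕ, w ≤ 1 → (2 : ℤ) ∣ m - w → (m : ℝ) < w + 2 → m = w := by
    intro w hw hd h
    have h2 : m < w + 2 := by exact_mod_cast h
    omega
  refine ⟨m, hm', u1, fun l q Q hl hq h2 h3 => ?_, fun l r hl h => ?_, o1, ?_, fun w hw hd => ⟨?_, ?_⟩⟩
  · obtain ⟨a1, a2⟩ := u1 l Q hl h3
    refine ⟨a1, ?_, a2⟩
    unfold Lower at h2
    rw [product_eq] at h2
    exact Pool.Agent.Q190.RV.one_lower half_c hb hF hm a1 hl hq h2
  · rw [product_eq] at h
    exact Pool.Agent.Q190.RV.one_limit half_c hb hF hm hl h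
  · intro h
    obtain ⟨a1, a2⟩ := o2 h
    refine ⟨a1, fun l hl => ?_⟩
    obtain ⟨a, b, ha, hab⟩ := a2 l hl
    exact ⟨a, b, ha, hab.mono fun y hy => hy.1, hab.mono fun y hy => hy.2⟩
  · intro l Q hl hQ h
    obtain ⟨a1, a2⟩ := u1 l Q hl h
    refine ⟨a1, low w hw hd ?_⟩
    have h3 : l ^ m < l ^ (w + 2) := lt_of_le_of_lt a2 hQ
    have h4 := (pow_lt_pow_iff_right₀ hl).1 h3
    exact_mod_cast h4
  · intro κ hκ h
    obtain ⟨h1, h2⟩ := (o1 κ).1 h
    exact ⟨(o2 h2).1, low w hw hd (by rw [← h1]; exact hκ)⟩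

end Pool.Agent.Results.MP_3b6604_nt.OneExponentRatios
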