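import Pool.Agent.Q28.BP.ArtinQ

/-!
# The truncated central orders of almost all quadratic twists of an Artin representation

Let `F/ℚ` be a finite Galois extension, `ρ` a representation of its group, and `χ_d` the quadratic character
of `ℚ(√d)`, `d` squarefree.  By the statements (ii) and (iii) of the problem the order at `s = 1/2` of
`L(s, ρ ⊗ χ_d)` should be `0` for irreducible `ρ` which are unitary or orthogonal (`ρ ⊗ χ_d ≠ 1`), and
`(1 - W)/2` for symplectic `ρ`, `W = ±1` the root number of `ρ ⊗ χ_d`.  Consider the exponents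

  `m_x(ρ ⊗ χ_d) = log (∏_{p ≤ x} |det (1 - χ_d(p) p^{-1/2} ρ(Frob_p))|) / log log x`,

which by the analogue of the original conjecture of Birch and Swinnerton-Dyer (Goldfeld; it follows from the
deep form of the Riemann hypothesis) should tend to the central order as `x → ∞` for symplectic `ρ`, and
whose limit is the central order for unitary `ρ` as well.  Let `ν(ρ)` be the indicator of Frobenius and Schur.
We prove unconditionally that for `100 %` of the squarefree `d`, `|d| ≤ T`,

  `m_x(ρ ⊗ χ_d) = -ν(ρ)/2 + o(1)` simultaneously for all `x` between a constant and `T^(1/10)`,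

and the same in the mean over `d`.  So in this range, for almost all twists, the truncated central order is
near to `0` for unitary `ρ`, as predicted by (ii); it is near to `1/2` for symplectic `ρ`, the mean value of
the order `(1 - W)/2` predicted by (iii) if the root numbers are equidistributed; and it is near to `-1/2`,
further away from a zero, for orthogonal `ρ` (for which the second order terms of a single `L`-function have
the size `(log x)^(1/2)`).  In all cases it is at most `1/2` for irreducible `ρ`: no irreducible `ρ` has a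
positive proportion of quadratic twists which look like having order `≥ 1` at all these `x`.

The proof: fourth moments over `d`, uniformly in all intervals of primes, a maximal inequality, and
Chebotarev's theorem.
-/

set_option autoImplicit false

namespace Pool.Agent.Results.MP_3b6604_nt.TruncatedCentralOrders

open scoped Classical
open Finset NumberField

/-- The squarefree integers `d`, `|d| ≤ T`. -/
noncomputable def discriminants (T : ℕ) : Finset ℤ := (Icc (-(T : ℤ)) T).filter fun d => Squarefree d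

variable {F : Type} [Field F] [NumberField F] {n : ℕ}

/-- `g` is a Frobenius element at the prime `p`: for a homomorphism `φ` from the ring of integers to an
algebraic closure of `𝔽_p` (i.e. for a prime ideal above `p`), `φ (g x) = φ(x)^p`. -/
def IsFrobenius (p : ℕ) (g : Gal(F/ℚ)) : Prop :=
  ∃ (_ : Fact p.Prime) (φ : 𝓞 F →+* AlgebraicClosure (ZMod p)), ∀ x : 𝓞 F, φ (g • x) = φ x ^ p

/-- `det (1 - χ_d(p) p^{-1/2} ρ(g))`; for `p ≠ 2` the value `χ_d(p)` of the character of `ℚ(√d)`, `d`
squarefree, is the symbol of Legendre, which is written as the symbol of Jacobi here. -/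
noncomputable def factor (ρ : Gal(F/ℚ) →* Matrix (Fin n) (Fin n) ℂ) (d : ℤ) (p : ℕ) (g : Gal(F/ℚ)) : ℂ :=
  (1 - (((jacobiSym d p : ℝ) / Real.sqrt p : ℝ) : ℂ) • ρ g).det

/-- The product over the primes `5 ≤ p ≤ x` not in `S`; `σ p` a Frobenius element. -/
noncomputable def product (ρ : Gal(F/ℚ) →* Matrix (Fin n) (Fin n) ℂ) (σ : ℕ → Gal(F/ℚ)) (S : Finset ℕ)
    (d : ℤ) (x : ℕ) : ℝ :=
  ∏ p ∈ (range (x + 1)).filter (fun p => p.Prime ∧ 5 ≤ p ∧ p ∉ S), ‖factor ρ d p (σ p)‖

/-- The exponent `m` for which the product up to `x` is `(log x) ^ m`. -/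
noncomputable def orderAt (ρ : Gal(F/ℚ) →* Matrix (Fin n) (Fin n) ℂ) (σ : ℕ → Gal(F/ℚ))
    (S : Finset ℕ) (d : ℤ) (x : ℕ) : ℝ :=
  Real.log (product ρ σ S d x) / Real.log (Real.log x)

/-- The indicator of Frobenius and Schur, the mean value of `tr ρ(g²)` (a real number; we take the real
part). -/
noncomputable def indicator (ρ : Gal(F/ℚ) →* Matrix (Fin n) (Fin n) ℂ) : ℝ :=
  (∑ g : Gal(F/ℚ), (ρ (g ^ 2)).trace.re) / Nat.card Gal(F/ℚ)

/-- **Truncated central orders.**  Let `F/ℚ` be a finite Galois extension, `ρ` a representation of its group,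
`S` a finite set of primes and `σ p` a Frobenius element at `p` for all primes `p ∉ S`.  (1) For all
`ε, η > 0` there is `X₀` such that for all `T`, with a proportion of at most `η` exceptions all squarefree `d`
with `|d| ≤ T` satisfy `|m_x(ρ ⊗ χ_d) + ν(ρ)/2| ≤ ε` for all `x ≥ X₀` with `x^10 ≤ T`.  (2) For every
`ε > 0` there is `X₀` such that for all `x ≥ X₀` and all `T ≥ x^10` the mean of `|m_x(ρ ⊗ χ_d) + ν(ρ)/2|` over
the squarefree `d` with `|d| ≤ T` is at most `ε`. -/
theorem result [IsGalois ℚ F] (ρ : Gal(F/ℚ) →* Matrix (Fin n) (Fin n) ℂ) (σ : ℕ → Gal(F/ℚ))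
    (S : Finset ℕ) (hσ : ∀ p : ℕ, p.Prime → p ∉ S → IsFrobenius p (σ p)) :
    (∀ ε η : ℝ, 0 < ε → 0 < η → ∃ X₀ : ℕ, ∀ T : ℕ, ∃ 𝓔 ⊆ discriminants T,
      (𝓔.card : ℝ) ≤ η * (discriminants T).card ∧
      ∀ d ∈ discriminants T, d ∉ 𝓔 → ∀ x : ℕ, X₀ ≤ x → x ^ 10 ≤ T →
        |orderAt ρ σ S d x + indicator ρ / 2| ≤ ε) ∧
    (∀ ε : ℝ, 0 < ε → ∃ X₀ : ℕ, ∀ T x : ℕ, X₀ ≤ x → x ^ 10 ≤ T →
      (∑ d ∈ discriminants T, |orderAt ρ σ S d x + indicator ρ / 2|) / (discriminants T).card ≤ ε) := by
  have hFF : ∀ T, discriminants T = Pool.Agent.Q28.BP.sqf T := fun T => rfl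
  set S' : Finset ℕ := S ∪ range 5 with hS'
  have hσ' : ∀ p : ℕ, p.Prime → p ∉ S' → Pool.Agent.Q28.BP.FrobAt F p (σ p) := fun p hp hpS =>
    hσ p hp fun h => hpS (mem_union_left _ h)
  have hS4 : ∀ p < 4, p ∈ S' := fun p hp => mem_union_right _ (mem_range.2 (by omega))
  have hm : Nat.card Gal(F/ℚ) ≠ 0 := Nat.card_pos.ne'
  have hrank : ∀ (d : ℤ) (x : ℕ), 16 ≤ x → orderAt ρ σ S d x + indicator ρ / 2 =
      (∑ p ∈ (range (x + 1)).filter Nat.Prime, Pool.Agent.Q28.BP.lq S' (fun p => ρ (σ p)) d p +
        Pool.Agent.Q28.BP.fs ρ / 2 * Real.log (Real.log x)) / Real.log (Real.log x) := by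
    intro d x hx
    have hL : Real.log (Real.log x) ≠ 0 := by
      have := Pool.Agent.Q28.BP.loglog_ge_one hx
      linarith
    have h1 : Real.log (product ρ σ S d x) = ∑ p ∈ (range (x + 1)).filter Nat.Prime,
        Pool.Agent.Q28.BP.lq S' (fun p => ρ (σ p)) d p := by
      unfold product
      rw [Real.log_prod]
      · rw [sum_filter, sum_filter]
        refine sum_congr rfl fun p _ => ?_
        unfold Pool.Agent.Q28.BP.lq
        by_cases hp : p.Prime
        · by_cases hpS : p ∈ S'
          · rw [if_pos hp, if_pos hpS, if_neg]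
            rintro ⟨_, h2, h3⟩
            rw [hS', mem_union, mem_range] at hpS
            rcases hpS with h4 | h4
            · exact h3 h4
            · omega
          · rw [if_pos hp, if_neg hpS, if_pos]
            · rfl
            · rw [hS', mem_union, mem_range, not_or] at hpS
              exact ⟨hp, by omega, hpS.1⟩
        · rw [if_neg hp, if_neg fun h => hp h.1]
      · intro p hp
        obtain ⟨_, hp, h5, _⟩ := mem_filter.1 hp
        have : Fact p.Prime := ⟨hp⟩
        have hp0 : (0 : ℝ) < p := by exact_mod_cast hp.pos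
        have h4 : (4 : ℝ) ≤ p := by exact_mod_cast (by omega : 4 ≤ p)
        have hs : 0 < Real.sqrt p := Real.sqrt_pos.2 hp0
        have hs2 : 2 ≤ Real.sqrt p := by
          rw [show (2 : ℝ) = Real.sqrt 4 by
            rw [show (4 : ℝ) = 2 ^ 2 by norm_num, Real.sqrt_sq (by norm_num)]]
          exact Real.sqrt_le_sqrt h4
        have hz : |(jacobiSym d p : ℝ) / Real.sqrt p| ≤ 1 / 2 := by
          rw [Pool.Agent.Q28.BP.jac_ch, abs_div, abs_of_pos hs, div_le_div_iff₀ hs (by norm_num)]
          have := Pool.Agent.Q28.BP.ch_abs (d : ZMod p)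
          nlinarith
        exact (Pool.Agent.Q28.BP.local_q (Pool.Agent.Q28.BP.eigLe_of_finite (ρ (σ p)) hm
          (by rw [← map_pow, pow_card_eq_one', map_one])) hz).1.ne'
    unfold orderAt
    rw [h1, add_div, mul_div_assoc, div_self hL, mul_one]
    rfl
  constructor
  · intro ε η hε hη
    obtain ⟨X₀, hX₀, H⟩ := Pool.Agent.Q28.BP.artinQ_all ρ σ S' hσ' hS4 hε hη
    refine ⟨X₀, fun T => ?_⟩
    obtain ⟨E, hE, hEc, HE⟩ := H T
    refine ⟨E, hE, hEc, fun d hd hne x hx hxT => ?_⟩
    have hl : 0 < Real.log (Real.log x) := by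
      have := Pool.Agent.Q28.BP.loglog_ge_one (hX₀.trans hx)
      linarith
    have h1 := HE d hd hne x hx hxT
    rw [hrank _ _ (hX₀.trans hx), abs_div, abs_of_pos hl, div_le_iff₀ hl]
    exact h1
  · intro ε hε
    obtain ⟨X₀, hX₀, H⟩ := Pool.Agent.Q28.BP.artinQ_mean ρ σ S' hσ' hS4 hε
    refine ⟨X₀, fun T x hx hxT => ?_⟩
    have hl : 0 < Real.log (Real.log x) := by
      have := Pool.Agent.Q28.BP.loglog_ge_one (hX₀.trans hx)
      linarith
    have h1 := H T x hx hxT
    rw [← hFF] at h1
    have h2 : ∑ d ∈ discriminants T, |orderAt ρ σ S d x + indicator ρ / 2| = (∑ d ∈ discriminants T,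
        |∑ p ∈ (range (x + 1)).filter Nat.Prime, Pool.Agent.Q28.BP.lq S' (fun p => ρ (σ p)) d p +
          Pool.Agent.Q28.BP.fs ρ / 2 * Real.log (Real.log x)|) / Real.log (Real.log x) := by
      rw [sum_div]
      refine sum_congr rfl fun q _ => ?_
      rw [hrank _ _ (hX₀.trans hx), abs_div, abs_of_pos hl]
    rw [h2]
    rcases Nat.eq_zero_or_pos (discriminants T).card with h0 | h0
    · rw [h0]
      simp only [Nat.cast_zero, div_zero]
      exact hε.le
    · have h3 : (0 : ℝ) < (discriminants T).card := by exact_mod_cast h0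
      rw [div_le_iff₀ h3, div_le_iff₀ hl]
      refine h1.trans (le_of_eq ?_)
      ring

end Pool.Agent.Results.MP_3b6604_nt.TruncatedCentralOrders
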